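import Pool.Agent.LibPlas90.Main

/-!
The existence of a plastic dense subgroup of the real line of size less than the continuum is
consistent with ZFC: it holds, with truth value `⊤`, in the Boolean-valued universe `V^B` for a
nontrivial complete Boolean algebra `B` (the measure algebra which adds `ℵ₂` random reals).
-/

namespace Pool.Agent.Results.MP_f5469c_gt.ConsistentlyPlastic

open Pool.Agent.LibPlas90

theorem result : ∃ (B : Type) (_ : CompleteBooleanAlgebra B) (_ : Nontrivial B),
    BSet.plasticSentence B = ⊤ :=
  main

end Pool.Agent.Results.MP_f5469c_gt.ConsistentlyPlastic
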