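import Mathlib

namespace Pool.Agent.Results.MP_f5469c_gt.MeasurableNotPlastic

open MeasureTheory Set

/-- A metric space is plastic if each of its non-expansive bijections is an isometry. -/
def Plastic (X : Type) [MetricSpace X] : Prop :=
  ∀ f : X → X, Function.Bijective f → (∀ x y, dist (f x) (f y) ≤ dist x y) → Isometry f

/-- measure of the part of `O` in `(u, v]`. -/
noncomputable def m (O : Set ℝ) (u v : ℝ) : ℝ := (volume (O ∩ Ioc u v)).toReal

lemma m_fin (O : Set ℝ) (u v : ℝ) : volume (O ∩ Ioc u v) ≠ ⊤ := by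
  refine ne_top_of_le_ne_top (b := volume (Ioc u v)) ?_ (measure_mono inter_subset_right)
  simp

lemma m_nonneg (O : Set ℝ) (u v : ℝ) : 0 ≤ m O u v := ENNReal.toReal_nonneg

lemma m_le (O : Set ℝ) {u v : ℝ} (h : u ≤ v) : m O u v ≤ v - u := by
  have h1 : volume (O ∩ Ioc u v) ≤ volume (Ioc u v) := measure_mono inter_subset_right
  have h2 : (volume (Ioc u v)).toReal = v - u := by
    rw [Real.volume_Ioc, ENNReal.toReal_ofReal (by linarith)]
  rw [← h2]
  exact ENNReal.toReal_mono (by simp) h1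

lemma m_self (O : Set ℝ) (u : ℝ) : m O u u = 0 := by simp [m]

lemma m_add {O : Set ℝ} (hO : MeasurableSet O) {a c b : ℝ} (h1 : a ≤ c) (h2 : c ≤ b) :
    m O a b = m O a c + m O c b := by
  unfold m
  rw [← ENNReal.toReal_add (m_fin O a c) (m_fin O c b), ← measure_union]
  · rw [← inter_union_distrib_left, Ioc_union_Ioc_eq_Ioc h1 h2]
  · rw [Set.disjoint_left]
    rintro x ⟨_, hx⟩ ⟨_, hy⟩
    exact absurd hy.1 (not_lt.mpr hx.2)
  · exact hO.inter measurableSet_Ioc

lemma m_mono_right {O : Set ℝ} (hO : MeasurableSet O) {a c b : ℝ} (h1 : a ≤ c) (h2 : c ≤ b) :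
    m O a c ≤ m O a b := by
  rw [m_add hO h1 h2]; linarith [m_nonneg O c b]

lemma m_mono_left {O : Set ℝ} (hO : MeasurableSet O) {a c b : ℝ} (h1 : a ≤ c) (h2 : c ≤ b) :
    m O c b ≤ m O a b := by
  rw [m_add hO h1 h2]; linarith [m_nonneg O a c]

/-- covering estimate -/
lemma m_cover {O : Set ℝ} {u v g : ℝ} (huv : u ≤ v)
    (h : ∀ t, u < t → t < v → (t ∈ O ∨ t + g ∈ O)) :
    v - u ≤ m O u v + m O (u + g) (v + g) := by
  have h1 : Ioo u v ⊆ (O ∩ Ioc u v) ∪ ((fun t => t + g) ⁻¹' (O ∩ Ioc (u + g) (v + g))) := by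
    rintro t ⟨ht1, ht2⟩
    rcases h t ht1 ht2 with h | h
    · exact Or.inl ⟨h, ht1, ht2.le⟩
    · refine Or.inr ⟨h, ?_, ?_⟩
      · show u + g < t + g
        linarith
      · show t + g ≤ v + g
        linarith
  have h2 : volume (Ioo u v) ≤ volume (O ∩ Ioc u v) + volume (O ∩ Ioc (u + g) (v + g)) := by
    refine (measure_mono h1).trans ((measure_union_le _ _).trans ?_)
    rw [measure_preimage_add_right]
  have h3 : (volume (Ioo u v)).toReal = v - u := by
    rw [Real.volume_Ioo, ENNReal.toReal_ofReal (by linarith)]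
  rw [← h3]
  unfold m
  rw [← ENNReal.toReal_add (m_fin _ _ _) (m_fin _ _ _)]
  refine ENNReal.toReal_mono ?_ h2
  exact ENNReal.add_ne_top.mpr ⟨m_fin _ _ _, m_fin _ _ _⟩

/-- continuity in the right endpoint, on `[a, ∞)`, packaged as a Lipschitz bound -/
lemma m_lip {O : Set ℝ} (hO : MeasurableSet O) {a s t : ℝ} (h1 : a ≤ s) (h2 : s ≤ t) :
    m O a t - m O a s ≤ t - s := by
  rw [m_add hO h1 h2]; linarith [m_le O h2]

lemma m_lip_left {O : Set ℝ} (hO : MeasurableSet O) {b s t : ℝ} (h1 : s ≤ t) (h2 : t ≤ b) :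
    m O s b - m O t b ≤ t - s := by
  rw [m_add hO h1 h2]; linarith [m_le O h1]

/-- left end of the new piece -/
lemma left_end {O : Set ℝ} (hO : IsOpen O) {a a' g q : ℝ} (hg : g ≤ a' - a) (hq : a' ≤ q + g)
    (hW : q ∈ O ∨ q + g ∈ O)
    (hpos : 0 < (q + g - a') - m O a q - m O a' (q + g)) :
    ∃ x, a < x ∧ x < q ∧ a' < x + g ∧ x ∉ O ∧ x + g ∉ O ∧
      0 < (x + g - a') - m O a x - m O a' (x + g) := by
  have hOm := hO.measurableSet
  set S : Set ℝ := {t | t ∈ Icc (a' - g) q ∧ t ∉ O ∧ t + g ∉ O} with hS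
  have hta : a ≤ a' - g := by linarith
  have key : ∀ x, a' - g ≤ x → x ≤ q → (∀ t, x < t → t < q → (t ∈ O ∨ t + g ∈ O)) →
      0 < (x + g - a') - m O a x - m O a' (x + g) := by
    intro x hx1 hx2 hx3
    have e1 := m_cover hx2 hx3
    have e2 := m_add hOm (a := a) (c := x) (b := q) (by linarith) hx2
    have e3 := m_add hOm (a := a') (c := x + g) (b := q + g) (by linarith) (by linarith)
    linarith
  have hne : S.Nonempty := by
    by_contra hemp
    rw [not_nonempty_iff_eq_empty] at hemp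
    have := key (a' - g) le_rfl (by linarith) (by
      intro t ht1 ht2
      by_contra hc
      push Not at hc
      have : t ∈ S := ⟨⟨ht1.le, ht2.le⟩, hc.1, hc.2⟩
      rw [hemp] at this
      exact this)
    have e : a' - g + g = a' := by ring
    rw [e, m_self] at this
    linarith [m_nonneg O a (a' - g)]
  have hcl : IsClosed S := by
    have h1 : IsClosed {t : ℝ | t ∉ O} := hO.isClosed_compl
    have h2 : IsClosed {t : ℝ | t + g ∉ O} :=
      (hO.preimage (continuous_add_const g)).isClosed_compl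
    exact isClosed_Icc.inter (h1.inter h2)
  have hbdd : BddAbove S := ⟨q, fun t ht => ht.1.2⟩
  have hmem := hcl.csSup_mem hne hbdd
  set x := sSup S with hx
  have hx3 : ∀ t, x < t → t < q → (t ∈ O ∨ t + g ∈ O) := by
    intro t ht1 ht2
    by_contra hc
    push Not at hc
    have : t ∈ S := ⟨⟨by linarith [hmem.1.1], ht2.le⟩, hc.1, hc.2⟩
    exact absurd (le_csSup hbdd this) (not_le.mpr ht1)
  have hx4 := key x hmem.1.1 hmem.1.2 hx3
  have hxne : x ≠ a' - g := by
    intro hh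
    rw [hh] at hx4
    have e : a' - g + g = a' := by ring
    rw [e, m_self] at hx4
    linarith [m_nonneg O a (a' - g)]
  have hlt : a' - g < x := lt_of_le_of_ne hmem.1.1 (Ne.symm hxne)
  have hxq : x ≠ q := by
    intro hh
    rcases hW with h | h
    · exact hmem.2.1 (hh ▸ h)
    · exact hmem.2.2 (hh ▸ h)
  exact ⟨x, by linarith, lt_of_le_of_ne hmem.1.2 hxq, by linarith, hmem.2.1, hmem.2.2, hx4⟩

/-- right end of the new piece -/
lemma right_end {O : Set ℝ} (hO : IsOpen O) {b b' g q : ℝ} (hg : b' - b ≤ g) (hq : q + g ≤ b')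
    (hW : q ∈ O ∨ q + g ∈ O)
    (hpos : 0 < (b' - (q + g)) - m O q b - m O (q + g) b') :
    ∃ y, y < b ∧ q < y ∧ y + g < b' ∧ y ∉ O ∧ y + g ∉ O ∧
      0 < (b' - (y + g)) - m O y b - m O (y + g) b' := by
  have hOm := hO.measurableSet
  set S : Set ℝ := {t | t ∈ Icc q (b' - g) ∧ t ∉ O ∧ t + g ∉ O} with hS
  have hta : b' - g ≤ b := by linarith
  have key : ∀ x, x ≤ b' - g → q ≤ x → (∀ t, q < t → t < x → (t ∈ O ∨ t + g ∈ O)) →
      0 < (b' - (x + g)) - m O x b - m O (x + g) b' := by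
    intro x hx1 hx2 hx3
    have e1 := m_cover hx2 hx3
    have e2 := m_add hOm (a := q) (c := x) (b := b) hx2 (by linarith)
    have e3 := m_add hOm (a := q + g) (c := x + g) (b := b') (by linarith) (by linarith)
    linarith
  have hne : S.Nonempty := by
    by_contra hemp
    rw [not_nonempty_iff_eq_empty] at hemp
    have := key (b' - g) le_rfl (by linarith) (by
      intro t ht1 ht2
      by_contra hc
      push Not at hc
      have : t ∈ S := ⟨⟨ht1.le, ht2.le⟩, hc.1, hc.2⟩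
      rw [hemp] at this
      exact this)
    have e : b' - g + g = b' := by ring
    rw [e, m_self] at this
    linarith [m_nonneg O (b' - g) b]
  have hcl : IsClosed S := by
    have h1 : IsClosed {t : ℝ | t ∉ O} := hO.isClosed_compl
    have h2 : IsClosed {t : ℝ | t + g ∉ O} :=
      (hO.preimage (continuous_add_const g)).isClosed_compl
    exact isClosed_Icc.inter (h1.inter h2)
  have hbdd : BddBelow S := ⟨q, fun t ht => ht.1.1⟩
  have hmem := hcl.csInf_mem hne hbdd
  set x := sInf S with hx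
  have hx3 : ∀ t, q < t → t < x → (t ∈ O ∨ t + g ∈ O) := by
    intro t ht1 ht2
    by_contra hc
    push Not at hc
    have : t ∈ S := ⟨⟨ht1.le, by linarith [hmem.1.2]⟩, hc.1, hc.2⟩
    exact absurd (csInf_le hbdd this) (not_le.mpr ht2)
  have hx4 := key x hmem.1.2 hmem.1.1 hx3
  have hxne : x ≠ b' - g := by
    intro hh
    rw [hh] at hx4
    have e : b' - g + g = b' := by ring
    rw [e, m_self] at hx4
    linarith [m_nonneg O (b' - g) b]
  have hlt : x < b' - g := lt_of_le_of_ne hmem.1.2 hxne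
  have hxq : x ≠ q := by
    intro hh
    rcases hW with h | h
    · exact hmem.2.1 (hh ▸ h)
    · exact hmem.2.2 (hh ▸ h)
  exact ⟨x, by linarith, lt_of_le_of_ne hmem.1.1 (Ne.symm hxq), by linarith, hmem.2.1,
    hmem.2.2, hx4⟩

/-- abstract choice of a translation amount -/
lemma choose_mid {G : Set ℝ} (hG : Dense G) {P R : ℝ → ℝ} {g0 g1 e : ℝ} (h01 : g0 < g1)
    (he : 0 < e) (hP : ContinuousOn P (Icc g0 g1)) (hsum : ∀ g ∈ Icc g0 g1, P g + R g = e)
    (h1 : 0 < P g1) (h0 : 0 < R g0) : ∃ g ∈ G, g0 < g ∧ g < g1 ∧ 0 < P g ∧ 0 < R g := by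
  -- find a point of the closed interval with 0 < P < e
  have hz : ∃ z ∈ Icc g0 g1, 0 < P z ∧ P z < e := by
    have hg0 : P g0 < e := by
      have := hsum g0 ⟨le_rfl, h01.le⟩; linarith
    by_cases hA : 0 < P g0
    · exact ⟨g0, ⟨le_rfl, h01.le⟩, hA, hg0⟩
    by_cases hB : P g1 < e
    · exact ⟨g1, ⟨h01.le, le_rfl⟩, h1, hB⟩
    push Not at hA hB
    have := intermediate_value_Icc h01.le hP
    obtain ⟨z, hz1, hz2⟩ := this ⟨show P g0 ≤ e / 2 by linarith, show e / 2 ≤ P g1 by linarith⟩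
    exact ⟨z, hz1, by rw [hz2]; linarith, by rw [hz2]; linarith⟩
  obtain ⟨z, hz, hz1, hz2⟩ := hz
  -- nearby points
  have hev : ∀ᶠ w in nhdsWithin z (Icc g0 g1), 0 < P w ∧ P w < e := by
    have hc : ContinuousWithinAt P (Icc g0 g1) z := hP z hz
    exact (hc.eventually (lt_mem_nhds hz1)).and (hc.eventually (gt_mem_nhds hz2))
  rw [eventually_nhdsWithin_iff, Filter.eventually_iff, mem_nhds_iff] at hev
  obtain ⟨U, hU1, hU2, hU3⟩ := hev
  have hzcl : z ∈ closure (Ioo g0 g1) := by rw [closure_Ioo h01.ne]; exact hz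
  have hne : (U ∩ Ioo g0 g1).Nonempty := mem_closure_iff.mp hzcl U hU2 hU3
  obtain ⟨g, hgG, hgU⟩ := hG.exists_mem_open (hU2.inter isOpen_Ioo) hne
  have hm2 : g ∈ Icc g0 g1 := ⟨hgU.2.1.le, hgU.2.2.le⟩
  have h3 := hU1 hgU.1 hm2
  have h4 := hsum g hm2
  exact ⟨g, hgG, hgU.2.1, hgU.2.2, h3.1, by linarith [h3.2]⟩

lemma contOn_right {O : Set ℝ} (hO : MeasurableSet O) (a : ℝ) :
    ContinuousOn (fun t => m O a t) (Ici a) := by
  have : LipschitzOnWith 1 (fun t => m O a t) (Ici a) := by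
    refine LipschitzOnWith.of_dist_le_mul ?_
    intro s hs t ht
    rw [NNReal.coe_one, one_mul, Real.dist_eq, Real.dist_eq]
    rcases le_total s t with h | h
    · have h1 := m_lip hO (a := a) hs h
      have h2 := m_mono_right hO (a := a) hs h
      rw [abs_sub_comm, abs_of_nonneg (by linarith), abs_sub_comm, abs_of_nonneg (by linarith)]
      exact h1
    · have h1 := m_lip hO (a := a) ht h
      have h2 := m_mono_right hO (a := a) ht h
      rw [abs_of_nonneg (by linarith), abs_of_nonneg (by linarith)]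
      exact h1
  exact this.continuousOn

/-- choice of the translation amount for a domain requirement -/
lemma choose_dom {O : Set ℝ} (hO : MeasurableSet O) {G : Set ℝ} (hG : Dense G)
    {a b a' b' q : ℝ} (haq : a < q) (hqb : q < b) (hab' : a' < b')
    (hgL : a' - a ∈ G) (hgR : b' - b ∈ G) (hle : b' - b ≤ a' - a)
    (he : 0 < (b' - a') - m O a b - m O a' b') :
    ∃ g ∈ G, b' - b ≤ g ∧ g ≤ a' - a ∧ a' ≤ q + g ∧ q + g ≤ b' ∧
      (0 < (q + g - a') - m O a q - m O a' (q + g) ∨ g = a' - a) ∧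
      (0 < (b' - (q + g)) - m O q b - m O (q + g) b' ∨ g = b' - b) := by
  rcases eq_or_lt_of_le hle with heq | hlt
  · exact ⟨a' - a, hgL, hle, le_rfl, by linarith, by linarith, Or.inr rfl, Or.inr heq.symm⟩
  set e := (b' - a') - m O a b - m O a' b' with hedef
  set P : ℝ → ℝ := fun g => (q + g - a') - m O a q - m O a' (q + g) with hP
  set R : ℝ → ℝ := fun g => (b' - (q + g)) - m O q b - m O (q + g) b' with hR
  have hsum : ∀ g, a' ≤ q + g → q + g ≤ b' → P g + R g = e := by
    intro g h1 h2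
    have e1 := m_add hO (a := a) (c := q) (b := b) haq.le hqb.le
    have e2 := m_add hO (a := a') (c := q + g) (b := b') h1 h2
    simp only [hP, hR, hedef]; linarith
  set g0 := max (b' - b) (a' - q) with hg0
  set g1 := min (a' - a) (b' - q) with hg1
  have h01 : g0 < g1 := by
    rw [hg0, hg1]
    refine max_lt ?_ ?_ <;> refine lt_min ?_ ?_ <;> linarith
  have hg0a : a' ≤ q + g0 := by have := le_max_right (b' - b) (a' - q); linarith
  have hg0b : q + g0 ≤ b' := by
    have h1 : g0 ≤ b' - q := by rw [hg0]; exact max_le (by linarith) (by linarith)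
    linarith
  have hg1a : a' ≤ q + g1 := by linarith
  have hg1b : q + g1 ≤ b' := by have := min_le_right (a' - a) (b' - q); linarith
  have hg0L : b' - b ≤ g0 := le_max_left _ _
  have hg1R : g1 ≤ a' - a := min_le_left _ _
  by_cases hA : 0 < P g1
  swap
  · -- merge left
    have hne : g1 = a' - a := by
      rcases min_choice (a' - a) (b' - q) with h | h
      · exact h
      · exfalso
        apply hA
        have hq' : q + g1 = b' := by rw [hg1, h]; ring
        simp only [hP, hq']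
        have := m_mono_right hO (a := a) haq.le hqb.le
        linarith
    refine ⟨g1, hne ▸ hgL, by linarith, hg1R, hg1a, hg1b, Or.inr hne, Or.inl ?_⟩
    have := hsum g1 hg1a hg1b
    show 0 < R g1
    linarith
  by_cases hB : 0 < R g0
  swap
  · have hne : g0 = b' - b := by
      rcases max_choice (b' - b) (a' - q) with h | h
      · exact h
      · exfalso
        apply hB
        have hq' : q + g0 = a' := by rw [hg0, h]; ring
        simp only [hR, hq']
        have := m_mono_left hO (a := a) haq.le hqb.le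
        linarith
    refine ⟨g0, hne ▸ hgR, hg0L, by linarith, hg0a, hg0b, Or.inl ?_, Or.inr hne⟩
    have := hsum g0 hg0a hg0b
    show 0 < P g0
    linarith
  have hcont : ContinuousOn P (Icc g0 g1) := by
    have hc := contOn_right hO a'
    have h1 : ContinuousOn (fun g => m O a' (q + g)) (Icc g0 g1) := by
      refine hc.comp (by fun_prop) ?_
      intro g hg
      show a' ≤ q + g
      linarith [hg.1]
    simp only [hP]
    exact (((continuousOn_const.add continuousOn_id).sub continuousOn_const).sub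
      continuousOn_const).sub h1
  have hsum' : ∀ g ∈ Icc g0 g1, P g + R g = e := by
    intro g hg
    exact hsum g (by linarith [hg.1]) (by linarith [hg.2])
  obtain ⟨g, hg, h1, h2, h3, h4⟩ := choose_mid hG h01 he hcont hsum' hA hB
  exact ⟨g, hg, by linarith, by linarith, by linarith, by linarith, Or.inl h3, Or.inl h4⟩

/-- choice of the translation amount for a range requirement -/
lemma choose_rng {O : Set ℝ} (hO : MeasurableSet O) {G : Set ℝ} (hG : Dense G)
    {a b a' b' z : ℝ} (haz : a' < z) (hzb : z < b')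
    (hgL : a' - a ∈ G) (hgR : b' - b ∈ G) (hle : b' - b ≤ a' - a)
    (he : 0 < (b' - a') - m O a b - m O a' b') :
    ∃ g ∈ G, b' - b ≤ g ∧ g ≤ a' - a ∧
      (0 < (z - a') - m O a (z - g) - m O a' z ∨ g = a' - a) ∧
      (0 < (b' - z) - m O (z - g) b - m O z b' ∨ g = b' - b) := by
  rcases eq_or_lt_of_le hle with heq | hlt
  · exact ⟨a' - a, hgL, hle, le_rfl, Or.inr rfl, Or.inr heq.symm⟩
  set e := (b' - a') - m O a b - m O a' b' with hedef
  set P : ℝ → ℝ := fun g => (z - a') - m O a (z - g) - m O a' z with hP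
  set R : ℝ → ℝ := fun g => (b' - z) - m O (z - g) b - m O z b' with hR
  have hsum : ∀ g ∈ Icc (b' - b) (a' - a), P g + R g = e := by
    intro g hg
    have e1 := m_add hO (a := a) (c := z - g) (b := b) (by linarith [hg.2]) (by linarith [hg.1])
    have e2 := m_add hO (a := a') (c := z) (b := b') haz.le hzb.le
    simp only [hP, hR, hedef]; linarith
  by_cases hA : 0 < P (a' - a)
  swap
  · refine ⟨a' - a, hgL, hle, le_rfl, Or.inr rfl, Or.inl ?_⟩
    have := hsum (a' - a) ⟨hle, le_rfl⟩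
    show 0 < R (a' - a)
    linarith
  by_cases hB : 0 < R (b' - b)
  swap
  · refine ⟨b' - b, hgR, le_rfl, hle, Or.inl ?_, Or.inr rfl⟩
    have := hsum (b' - b) ⟨le_rfl, hle⟩
    show 0 < P (b' - b)
    linarith
  have hcont : ContinuousOn P (Icc (b' - b) (a' - a)) := by
    have hc := contOn_right hO a
    have h1 : ContinuousOn (fun g => m O a (z - g)) (Icc (b' - b) (a' - a)) := by
      refine hc.comp (by fun_prop) ?_
      intro g hg
      show a ≤ z - g
      linarith [hg.2]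
    simp only [hP]
    exact (continuousOn_const.sub h1).sub continuousOn_const
  obtain ⟨g, hg, h1, h2, h3, h4⟩ := choose_mid hG hlt he hcont hsum hA hB
  exact ⟨g, hg, by linarith, by linarith, Or.inl h3, Or.inl h4⟩

/-- a gap of the frozen set -/
structure Gap (O : Set ℝ) (Z : Set ℝ) (F : ℝ → ℝ) (a b : ℝ) : Prop where
  lt : a < b
  ha : a ∈ Z
  hb : b ∈ Z
  free : ∀ t, a < t → t < b → t ∉ Z
  haO : a ∉ O
  hbO : b ∉ O
  hFaO : F a ∉ O
  hFbO : F b ∉ O
  slack : 0 < (F b - F a) - m O a b - m O (F a) (F b)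

/-- a stage of the construction -/
structure Cfg (O : Set ℝ) (G : AddSubgroup ℝ) where
  Z : Set ℝ
  F : ℝ → ℝ
  mono : ∀ s ∈ Z, ∀ t ∈ Z, s < t → F s < F t ∧ F t - F s ≤ t - s
  mem : ∀ t ∈ Z, F t - t ∈ G
  gapD : ∀ t, t ∉ Z → ∃ a b, Gap O Z F a b ∧ a < t ∧ t < b
  gapR : ∀ w, w ∉ F '' Z → ∃ a b, Gap O Z F a b ∧ F a < w ∧ w < F b

def Ext {O : Set ℝ} {G : AddSubgroup ℝ} (C D : Cfg O G) : Prop :=
  C.Z ⊆ D.Z ∧ ∀ t ∈ C.Z, D.F t = C.F t

lemma Ext.refl {O : Set ℝ} {G : AddSubgroup ℝ} (C : Cfg O G) : Ext C C :=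
  ⟨subset_rfl, fun _ _ => rfl⟩

lemma Ext.trans {O : Set ℝ} {G : AddSubgroup ℝ} {C D E : Cfg O G} (h1 : Ext C D) (h2 : Ext D E) :
    Ext C E :=
  ⟨h1.1.trans h2.1, fun t ht => (h2.2 t (h1.1 ht)).trans (h1.2 t ht)⟩

/-- inserting one piece -/
lemma insert_piece {O : Set ℝ} {G : AddSubgroup ℝ} (hO : IsOpen O) (C : Cfg O G) {a b g q : ℝ}
    (hgap : Gap O C.Z C.F a b) (haq : a < q) (hqb : q < b)
    (hgG : g ∈ G) (hg1 : C.F b - b ≤ g) (hg2 : g ≤ C.F a - a)
    (hqa : C.F a ≤ q + g) (hqb' : q + g ≤ C.F b) (hW : q ∈ O ∨ q + g ∈ O)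
    (hL : 0 < (q + g - C.F a) - m O a q - m O (C.F a) (q + g) ∨ g = C.F a - a)
    (hR : 0 < (C.F b - (q + g)) - m O q b - m O (q + g) (C.F b) ∨ g = C.F b - b) :
    ∃ D : Cfg O G, Ext C D ∧ q ∈ D.Z ∧ D.F q = q + g := by
  classical
  obtain ⟨x, hax, hxq, hxL⟩ : ∃ x, a ≤ x ∧ x < q ∧
      ((x = a ∧ C.F a = x + g) ∨ (a < x ∧ C.F a < x + g ∧ x ∉ O ∧ x + g ∉ O ∧
      0 < (x + g - C.F a) - m O a x - m O (C.F a) (x + g))) := by
    rcases hL with h | h
    · obtain ⟨x, h1, h2, h3, h4, h5, h6⟩ := left_end hO hg2 hqa hW h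
      exact ⟨x, h1.le, h2, Or.inr ⟨h1, h3, h4, h5, h6⟩⟩
    · exact ⟨a, le_rfl, haq, Or.inl ⟨rfl, by rw [h]; ring⟩⟩
  obtain ⟨y, hyb, hqy, hyR⟩ : ∃ y, y ≤ b ∧ q < y ∧
      ((y = b ∧ C.F b = y + g) ∨ (y < b ∧ y + g < C.F b ∧ y ∉ O ∧ y + g ∉ O ∧
      0 < (C.F b - (y + g)) - m O y b - m O (y + g) (C.F b))) := by
    rcases hR with h | h
    · obtain ⟨y, h1, h2, h3, h4, h5, h6⟩ := right_end hO hg1 hqb' hW h
      exact ⟨y, h1.le, h2, Or.inr ⟨h1, h3, h4, h5, h6⟩⟩
    · exact ⟨b, le_rfl, hqb, Or.inl ⟨rfl, by rw [h]; ring⟩⟩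
  have hxy : x < y := hxq.trans hqy
  have hxF : C.F a ≤ x + g := by
    rcases hxL with h | h
    · exact h.2.le
    · exact h.2.1.le
  have hyF : y + g ≤ C.F b := by
    rcases hyR with h | h
    · exact h.2.ge
    · exact h.2.1.le
  set F' : ℝ → ℝ := fun t => if t ∈ Icc x y then t + g else C.F t with hF'
  have hFin : ∀ t, x ≤ t → t ≤ y → F' t = t + g := fun t h1 h2 => if_pos ⟨h1, h2⟩
  have hFout : ∀ t, ¬ (x ≤ t ∧ t ≤ y) → F' t = C.F t := fun t h => if_neg h
  have hZout : ∀ t ∈ C.Z, t ≤ a ∨ b ≤ t := by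
    intro t ht
    by_contra hc
    push Not at hc
    exact hgap.free t hc.1 hc.2 ht
  have hFZ : ∀ t ∈ C.Z, F' t = C.F t := by
    intro t ht
    by_cases h : x ≤ t ∧ t ≤ y
    · rw [hFin t h.1 h.2]
      rcases hZout t ht with h1 | h1
      · have hta : t = a := le_antisymm h1 (hax.trans h.1)
        rcases hxL with h2 | h2
        · rw [hta, h2.2, h2.1]
        · linarith [h.1, h2.1]
      · have htb : t = b := le_antisymm (h.2.trans hyb) h1
        rcases hyR with h2 | h2
        · rw [htb, h2.2, h2.1]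
        · linarith [h.2, h2.1]
    · exact hFout t h
  have hmonoZ : ∀ s ∈ C.Z, ∀ t ∈ C.Z, s ≤ t → C.F s ≤ C.F t ∧ C.F t - C.F s ≤ t - s := by
    intro s hs t ht hst
    rcases eq_or_lt_of_le hst with h | h
    · subst h; simp
    · exact ⟨(C.mono s hs t ht h).1.le, (C.mono s hs t ht h).2⟩
  -- gaps different from (a, b)
  have hother : ∀ a1 b1, Gap O C.Z C.F a1 b1 → (a1 = a ∧ b1 = b) ∨ b1 ≤ a ∨ b ≤ a1 := by
    intro a1 b1 h1
    by_contra hc
    push Not at hc
    obtain ⟨hc1, hc2, hc3⟩ := hc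
    have e1 : a1 ≤ a := by
      rcases hZout a1 h1.ha with h | h
      · exact h
      · linarith
    have e2 : a ≤ a1 := by
      by_contra h
      push Not at h
      exact h1.free a h hc2 hgap.ha
    have e3 : b ≤ b1 := by
      rcases hZout b1 h1.hb with h | h
      · linarith
      · exact h
    have e4 : b1 ≤ b := by
      by_contra h
      push Not at h
      exact h1.free b hc3 h hgap.hb
    exact hc1 (le_antisymm e1 e2) (le_antisymm e4 e3)
  have hgapOther : ∀ a1 b1, Gap O C.Z C.F a1 b1 → (b1 ≤ a ∨ b ≤ a1) →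
      Gap O (C.Z ∪ Icc x y) F' a1 b1 := by
    intro a1 b1 h1 h2
    refine ⟨h1.lt, Or.inl h1.ha, Or.inl h1.hb, ?_, h1.haO, h1.hbO, ?_, ?_, ?_⟩
    · rintro t ht1 ht2 (ht | ht)
      · exact h1.free t ht1 ht2 ht
      · rcases h2 with h2 | h2
        · linarith [ht.1]
        · linarith [ht.2]
    · rw [hFZ a1 h1.ha]; exact h1.hFaO
    · rw [hFZ b1 h1.hb]; exact h1.hFbO
    · rw [hFZ a1 h1.ha, hFZ b1 h1.hb]; exact h1.slack
  have hgapL : a < x → Gap O (C.Z ∪ Icc x y) F' a x := by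
    intro hlt
    rcases hxL with h | h
    · exact absurd h.1 hlt.ne'
    obtain ⟨_, h2, h3, h4, h5⟩ := h
    refine ⟨hlt, Or.inl hgap.ha, Or.inr ⟨le_rfl, hxy.le⟩, ?_, hgap.haO, h3, ?_, ?_, ?_⟩
    · rintro t ht1 ht2 (ht | ht)
      · exact hgap.free t ht1 (by linarith) ht
      · linarith [ht.1]
    · rw [hFZ a hgap.ha]; exact hgap.hFaO
    · rw [hFin x le_rfl hxy.le]; exact h4
    · rw [hFZ a hgap.ha, hFin x le_rfl hxy.le]; exact h5
  have hgapR' : y < b → Gap O (C.Z ∪ Icc x y) F' y b := by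
    intro hlt
    rcases hyR with h | h
    · exact absurd h.1 hlt.ne
    obtain ⟨_, h2, h3, h4, h5⟩ := h
    refine ⟨hlt, Or.inr ⟨hxy.le, le_rfl⟩, Or.inl hgap.hb, ?_, h3, hgap.hbO, ?_, ?_, ?_⟩
    · rintro t ht1 ht2 (ht | ht)
      · exact hgap.free t (by linarith) ht2 ht
      · linarith [ht.2]
    · rw [hFin y hxy.le le_rfl]; exact h4
    · rw [hFZ b hgap.hb]; exact hgap.hFbO
    · rw [hFZ b hgap.hb, hFin y hxy.le le_rfl]; exact h5
  refine ⟨⟨C.Z ∪ Icc x y, F', ?_, ?_, ?_, ?_⟩, ⟨subset_union_left, hFZ⟩,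
    Or.inr ⟨hxq.le, hqy.le⟩, hFin q hxq.le hqy.le⟩
  · -- mono
    intro s hs t ht hst
    by_cases hsI : x ≤ s ∧ s ≤ y
    · by_cases htI : x ≤ t ∧ t ≤ y
      · rw [hFin s hsI.1 hsI.2, hFin t htI.1 htI.2]
        constructor <;> linarith
      · have htZ : t ∈ C.Z := by
          rcases ht with h | h
          · exact h
          · exact absurd h htI
        have htb : b ≤ t := by
          rcases hZout t htZ with h | h
          · exfalso; linarith [hsI.1]
          · exact h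
        rw [hFin s hsI.1 hsI.2, hFout t htI]
        have h1 := hmonoZ b hgap.hb t htZ htb
        have hsb : s < b ∨ s = b := by
          rcases lt_or_eq_of_le (hsI.2.trans hyb) with h | h
          · exact Or.inl h
          · exact Or.inr h
        constructor
        · rcases hyR with h | h
          · rcases eq_or_lt_of_le htb with h3 | h3
            · rw [← h3, h.2]; linarith [h.1]
            · have := (C.mono b hgap.hb t htZ h3).1
              linarith [hsI.2]
          · linarith [hsI.2, h.2.1]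
        · linarith
    · have hsZ : s ∈ C.Z := by
        rcases hs with h | h
        · exact h
        · exact absurd h hsI
      by_cases htI : x ≤ t ∧ t ≤ y
      · have hsa : s ≤ a := by
          rcases hZout s hsZ with h | h
          · exact h
          · exfalso; linarith [htI.2]
        rw [hFout s hsI, hFin t htI.1 htI.2]
        have h1 := hmonoZ s hsZ a hgap.ha hsa
        constructor
        · rcases hxL with h | h
          · rcases eq_or_lt_of_le hsa with h3 | h3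
            · rw [h3, h.2]; linarith [h.1]
            · have := (C.mono s hsZ a hgap.ha h3).1
              linarith [htI.1]
          · linarith [htI.1, h.2.1]
        · linarith
      · have htZ : t ∈ C.Z := by
          rcases ht with h | h
          · exact h
          · exact absurd h htI
        rw [hFout s hsI, hFout t htI]
        exact C.mono s hsZ t htZ hst
  · -- mem
    intro t ht
    by_cases h : x ≤ t ∧ t ≤ y
    · rw [hFin t h.1 h.2]
      have : t + g - t = g := by ring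
      rw [this]; exact hgG
    · have htZ : t ∈ C.Z := by
        rcases ht with h' | h'
        · exact h'
        · exact absurd h' h
      rw [hFout t h]; exact C.mem t htZ
  · -- gapD
    intro t ht
    have h1 : t ∉ C.Z := fun h => ht (Or.inl h)
    have h2 : ¬ (x ≤ t ∧ t ≤ y) := fun h => ht (Or.inr h)
    obtain ⟨a1, b1, hg, h3, h4⟩ := C.gapD t h1
    rcases hother a1 b1 hg with h5 | h5
    · rw [h5.1] at h3
      rw [h5.2] at h4
      rcases lt_or_ge t x with h6 | h6
      · exact ⟨a, x, hgapL (h3.trans h6), h3, h6⟩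
      · have h7 : y < t := by
          by_contra h
          push Not at h
          exact h2 ⟨h6, h⟩
        exact ⟨y, b, hgapR' (h7.trans h4), h7, h4⟩
    · exact ⟨a1, b1, hgapOther a1 b1 hg h5, h3, h4⟩
  · -- gapR
    intro w hw
    have h1 : w ∉ C.F '' C.Z := by
      rintro ⟨t, ht, rfl⟩
      exact hw ⟨t, Or.inl ht, hFZ t ht⟩
    have h2 : ¬ (x + g ≤ w ∧ w ≤ y + g) := by
      intro h
      apply hw
      refine ⟨w - g, Or.inr ⟨by linarith [h.1], by linarith [h.2]⟩, ?_⟩
      rw [hFin (w - g) (by linarith [h.1]) (by linarith [h.2])]; ring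
    obtain ⟨a1, b1, hg, h3, h4⟩ := C.gapR w h1
    rcases hother a1 b1 hg with h5 | h5
    · rw [h5.1] at h3
      rw [h5.2] at h4
      rcases lt_or_ge w (x + g) with h6 | h6
      · have hlt : a < x := by
          rcases hxL with h | h
          · linarith [h.2]
          · exact h.1
        refine ⟨a, x, hgapL hlt, ?_, ?_⟩
        · rw [hFZ a hgap.ha]; exact h3
        · rw [hFin x le_rfl hxy.le]; exact h6
      · have h7 : y + g < w := by
          by_contra h
          push Not at h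
          exact h2 ⟨h6, h⟩
        have hlt : y < b := by
          rcases hyR with h | h
          · linarith [h.2]
          · exact h.1
        refine ⟨y, b, hgapR' hlt, ?_, ?_⟩
        · rw [hFin y hxy.le le_rfl]; exact h7
        · rw [hFZ b hgap.hb]; exact h4
    · refine ⟨a1, b1, hgapOther a1 b1 hg h5, ?_, ?_⟩
      · rw [hFZ a1 hg.ha]; exact h3
      · rw [hFZ b1 hg.hb]; exact h4

lemma step_dom {O : Set ℝ} {G : AddSubgroup ℝ} (hO : IsOpen O) (hG : Dense (G : Set ℝ))
    (C : Cfg O G) (q : ℝ) (hq : q ∈ O) : ∃ D : Cfg O G, Ext C D ∧ q ∈ D.Z := by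
  by_cases hqZ : q ∈ C.Z
  · exact ⟨C, Ext.refl C, hqZ⟩
  obtain ⟨a, b, hgap, h1, h2⟩ := C.gapD q hqZ
  have hab := C.mono a hgap.ha b hgap.hb hgap.lt
  obtain ⟨g, hg, h3, h4, h5, h6, h7, h8⟩ := choose_dom hO.measurableSet hG h1 h2 hab.1
    (C.mem a hgap.ha) (C.mem b hgap.hb) (by linarith [hab.2]) hgap.slack
  obtain ⟨D, hD1, hD2, _⟩ := insert_piece hO C hgap h1 h2 hg h3 h4 h5 h6 (Or.inl hq) h7 h8
  exact ⟨D, hD1, hD2⟩

lemma step_rng {O : Set ℝ} {G : AddSubgroup ℝ} (hO : IsOpen O) (hG : Dense (G : Set ℝ))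
    (C : Cfg O G) (z : ℝ) (hz : z ∈ O) : ∃ D : Cfg O G, Ext C D ∧ z ∈ D.F '' D.Z := by
  by_cases hqZ : z ∈ C.F '' C.Z
  · exact ⟨C, Ext.refl C, hqZ⟩
  obtain ⟨a, b, hgap, h1, h2⟩ := C.gapR z hqZ
  have hab := C.mono a hgap.ha b hgap.hb hgap.lt
  obtain ⟨g, hg, h3, h4, h7, h8⟩ := choose_rng hO.measurableSet hG h1 h2
    (C.mem a hgap.ha) (C.mem b hgap.hb) (by linarith [hab.2]) hgap.slack
  have e : z - g + g = z := by ring
  obtain ⟨D, hD1, hD2, hD3⟩ := insert_piece hO C hgap (q := z - g) (by linarith) (by linarith)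
    hg h3 h4 (by linarith) (by linarith) (Or.inr (by rw [e]; exact hz)) (by rw [e]; exact h7)
    (by rw [e]; exact h8)
  exact ⟨D, hD1, z - g, hD2, by rw [hD3]; ring⟩

lemma step_both {O : Set ℝ} {G : AddSubgroup ℝ} (hO : IsOpen O) (hG : Dense (G : Set ℝ))
    (C : Cfg O G) (q : ℝ) :
    ∃ D : Cfg O G, Ext C D ∧ (q ∈ O → q ∈ D.Z) ∧ (q ∈ O → q ∈ D.F '' D.Z) := by
  by_cases hq : q ∈ O
  · obtain ⟨D, h1, h2⟩ := step_dom hO hG C q hq
    obtain ⟨E, h3, h4⟩ := step_rng hO hG D q hq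
    exact ⟨E, h1.trans h3, fun _ => h3.1 h2, fun _ => h4⟩
  · exact ⟨C, Ext.refl C, fun h => absurd h hq, fun h => absurd h hq⟩

lemma m_le_vol {O : Set ℝ} (hv : volume O < ENNReal.ofReal (1 / 8)) (u v : ℝ) :
    m O u v < 1 / 8 := by
  have h1 : volume (O ∩ Ioc u v) < ENNReal.ofReal (1 / 8) :=
    lt_of_le_of_lt (measure_mono inter_subset_left) hv
  unfold m
  rw [← ENNReal.toReal_ofReal (by norm_num : (0:ℝ) ≤ 1 / 8)]
  exact (ENNReal.toReal_lt_toReal (m_fin _ _ _) ENNReal.ofReal_ne_top).mpr h1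

/-- the initial stage -/
lemma base_cfg {O : Set ℝ} {G : AddSubgroup ℝ} (hv : volume O < ENNReal.ofReal (1 / 8))
    (hG : Dense (G : Set ℝ)) :
    ∃ (C : Cfg O G) (a b g : ℝ), g ≠ 0 ∧ -(1 / 2) < g ∧ a + 1 ≤ b ∧ Iic a ⊆ C.Z ∧ Ici b ⊆ C.Z ∧
      (∀ t, t ≤ a → C.F t = t) ∧ (∀ t, b ≤ t → C.F t = t + g) := by
  classical
  obtain ⟨g, hgG, hg⟩ := hG.exists_mem_open
    (isOpen_Ioo : IsOpen (Ioo (-(1/2) : ℝ) (-(1/4)))) ⟨-(3/8), by norm_num, by norm_num⟩
  obtain ⟨a, ha1, ha2⟩ : ∃ a ∈ Icc (0:ℝ) 1, a ∉ O := by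
    by_contra hc
    push Not at hc
    have h1 : volume (Icc (0:ℝ) 1) ≤ volume O := measure_mono hc
    have h2 := lt_of_le_of_lt h1 hv
    rw [Real.volume_Icc] at h2
    have := (ENNReal.ofReal_lt_ofReal_iff_of_nonneg (by norm_num)).mp h2
    norm_num at this
  obtain ⟨b, hb1, hb2⟩ : ∃ b ∈ Icc (2:ℝ) 3, b ∉ O ∧ b + g ∉ O := by
    by_contra hc
    push Not at hc
    have h1 : Icc (2:ℝ) 3 ⊆ O ∪ ((fun t => t + g) ⁻¹' O) := by
      intro t ht
      by_cases h : t ∈ O
      · exact Or.inl h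
      · exact Or.inr (hc t ht h)
    have h2 : volume (Icc (2:ℝ) 3) ≤ volume O + volume O := by
      refine (measure_mono h1).trans ((measure_union_le _ _).trans ?_)
      rw [measure_preimage_add_right]
    have h3 : volume O + volume O < ENNReal.ofReal (1 / 8) + ENNReal.ofReal (1 / 8) :=
      ENNReal.add_lt_add hv hv
    rw [← ENNReal.ofReal_add (by norm_num) (by norm_num)] at h3
    have h4 := lt_of_le_of_lt h2 h3
    rw [Real.volume_Icc] at h4
    have := (ENNReal.ofReal_lt_ofReal_iff_of_nonneg (by norm_num)).mp h4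
    norm_num at this
  obtain ⟨hg1, hg2⟩ := hg
  have hab : a + 1 ≤ b := by linarith [ha1.2, hb1.1]
  set F : ℝ → ℝ := fun t => if t ≤ a then t else t + g with hF
  have hFa : ∀ t, t ≤ a → F t = t := fun t h => if_pos h
  have hFb : ∀ t, b ≤ t → F t = t + g := fun t h => if_neg (by linarith)
  have hgap : Gap O (Iic a ∪ Ici b) F a b := by
    refine ⟨by linarith, Or.inl (le_refl a), Or.inr (le_refl b), ?_, ha2, hb2.1, ?_, ?_, ?_⟩
    · rintro t h1 h2 (h | h)
      · exact absurd h (not_le.mpr h1)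
      · exact absurd h (not_le.mpr h2)
    · rw [hFa a le_rfl]; exact ha2
    · rw [hFb b le_rfl]; exact hb2.2
    · rw [hFa a le_rfl, hFb b le_rfl]
      have := m_le_vol hv a b
      have := m_le_vol hv a (b + g)
      linarith
  refine ⟨⟨Iic a ∪ Ici b, F, ?_, ?_, ?_, ?_⟩, a, b, g, by linarith, hg1, hab,
    subset_union_left, subset_union_right, hFa, hFb⟩
  · rintro s (hs | hs) t (ht | ht) hst
    · rw [hFa s hs, hFa t ht]; exact ⟨hst, le_rfl⟩
    · rw [hFa s hs, hFb t ht]
      have h1 : s ≤ a := hs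
      have h2 : b ≤ t := ht
      constructor <;> linarith
    · have h1 : b ≤ s := hs
      have h2 : t ≤ a := ht
      linarith
    · rw [hFb s hs, hFb t ht]; constructor <;> linarith
  · rintro t (ht | ht)
    · rw [hFa t ht, sub_self]; exact G.zero_mem
    · rw [hFb t ht]
      have : t + g - t = g := by ring
      rw [this]; exact hgG
  · intro t ht
    have h1 : ¬ t ≤ a := fun h => ht (Or.inl h)
    have h2 : ¬ b ≤ t := fun h => ht (Or.inr h)
    push Not at h1 h2
    exact ⟨a, b, hgap, h1, h2⟩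
  · intro w hw
    refine ⟨a, b, hgap, ?_, ?_⟩
    · rw [hFa a le_rfl]
      by_contra h
      push Not at h
      exact hw ⟨w, Or.inl h, hFa w h⟩
    · rw [hFb b le_rfl]
      by_contra h
      push Not at h
      refine hw ⟨w - g, Or.inr ?_, ?_⟩
      · show b ≤ w - g
        linarith
      · rw [hFb (w - g) (by linarith)]; ring

/-- a null dense subgroup is not plastic -/
theorem null_not_plastic (G : AddSubgroup ℝ) (hd : Dense (G : Set ℝ))
    (h0 : volume (G : Set ℝ) = 0) : ¬ Plastic G := by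
  classical
  obtain ⟨O, hGO, hO, hvO⟩ : ∃ O : Set ℝ, (G : Set ℝ) ⊆ O ∧ IsOpen O ∧
      volume O < ENNReal.ofReal (1 / 8) := by
    obtain ⟨U, hU1, hU2, hU3⟩ := Set.exists_isOpen_lt_of_lt (μ := (volume : Measure ℝ))
      (G : Set ℝ) (ENNReal.ofReal (1 / 8)) (by
        rw [h0]; exact ENNReal.ofReal_pos.mpr (by norm_num))
    exact ⟨U, hU1, hU2, hU3⟩
  obtain ⟨C0, a, b, g, hg0, hg1, hab, hZa, hZb, hFa, hFb⟩ := base_cfg hvO hd
  obtain ⟨r, hr⟩ := exists_surjective_nat ℚ
  have hstep : ∀ (C : Cfg O G) (q : ℝ),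
      ∃ D : Cfg O G, Ext C D ∧ (q ∈ O → q ∈ D.Z) ∧ (q ∈ O → q ∈ D.F '' D.Z) :=
    fun C q => step_both hO hd C q
  choose nxt hn1 hn2 hn3 using hstep
  let C : ℕ → Cfg O G := fun n => Nat.rec C0 (fun k D => nxt D (r k : ℝ)) n
  have hC0 : C 0 = C0 := rfl
  have hCs : ∀ n, C (n + 1) = nxt (C n) (r n : ℝ) := fun n => rfl
  have hExt1 : ∀ n, Ext (C n) (C (n + 1)) := fun n => by rw [hCs]; exact hn1 _ _
  have hExt : ∀ n k, n ≤ k → Ext (C n) (C k) := by
    intro n k hnk
    induction hnk with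
    | refl => exact Ext.refl _
    | step _ ih => exact ih.trans (hExt1 _)
  -- rational points near x
  have hrat : ∀ x ∈ O, ∃ n : ℕ, (r n : ℝ) ∈ O ∧ (∀ t, x ≤ t → t ≤ (r n : ℝ) → t ∈ O) ∧
      (∀ t, (r n : ℝ) ≤ t → t ≤ x → t ∈ O) := by
    intro x hx
    obtain ⟨ε, hε, hball⟩ := Metric.isOpen_iff.mp hO x hx
    obtain ⟨q, hq1, hq2⟩ := exists_rat_btwn (show x < x + ε by linarith)
    obtain ⟨n, hn⟩ := hr q
    refine ⟨n, ?_, ?_, ?_⟩
    · rw [hn]; apply hball; rw [Metric.mem_ball, Real.dist_eq, abs_lt]; constructor <;> linarith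
    · intro t h1 h2
      rw [hn] at h2
      apply hball; rw [Metric.mem_ball, Real.dist_eq, abs_lt]; constructor <;> linarith
    · intro t h1 h2
      rw [hn] at h1
      linarith
  have hcovD : ∀ x ∈ O, ∃ n, x ∈ (C n).Z := by
    intro x hx
    obtain ⟨n, h1, h2, h3⟩ := hrat x hx
    refine ⟨n + 1, ?_⟩
    by_contra hxZ
    obtain ⟨c, d, hgap, h4, h5⟩ := (C (n + 1)).gapD x hxZ
    have hq : (r n : ℝ) ∈ (C (n + 1)).Z := by rw [hCs]; exact hn2 _ _ h1
    rcases lt_or_ge c (r n : ℝ) with h6 | h6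
    · rcases lt_or_ge (r n : ℝ) d with h7 | h7
      · exact hgap.free _ h6 h7 hq
      · exact hgap.hbO (h2 d h5.le h7)
    · exact hgap.haO (h3 c h6 h4.le)
  have hcovR : ∀ x ∈ O, ∃ n, x ∈ (C n).F '' (C n).Z := by
    intro x hx
    obtain ⟨n, h1, h2, h3⟩ := hrat x hx
    refine ⟨n + 1, ?_⟩
    by_contra hxZ
    obtain ⟨c, d, hgap, h4, h5⟩ := (C (n + 1)).gapR x hxZ
    have hq : (r n : ℝ) ∈ (C (n + 1)).F '' (C (n + 1)).Z := by rw [hCs]; exact hn3 _ _ h1
    obtain ⟨t, ht1, ht2⟩ := hq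
    rcases lt_trichotomy t c with h6 | h6 | h6
    · have := ((C (n + 1)).mono t ht1 c hgap.ha h6).1
      exact hgap.hFaO (h3 _ (by linarith) h4.le)
    · exact hgap.hFaO (h3 _ (by rw [← ht2, h6]) h4.le)
    · rcases lt_trichotomy t d with h7 | h7 | h7
      · exact hgap.free t h6 h7 ht1
      · exact hgap.hFbO (h2 _ h5.le (by rw [← ht2, h7]))
      · have := ((C (n + 1)).mono d hgap.hb t ht1 h7).1
        exact hgap.hFbO (h2 _ h5.le (by linarith))
  -- the limit map
  choose! N hN using hcovD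
  let φ : ℝ → ℝ := fun x => (C (N x)).F x
  have hφ : ∀ n x, x ∈ O → x ∈ (C n).Z → φ x = (C n).F x := by
    intro n x hx hxn
    rcases le_total n (N x) with h | h
    · exact (hExt _ _ h).2 x hxn
    · exact ((hExt _ _ h).2 x (hN x hx)).symm
  have hpair : ∀ x ∈ O, ∀ y ∈ O, ∃ n, x ∈ (C n).Z ∧ y ∈ (C n).Z := by
    intro x hx y hy
    exact ⟨max (N x) (N y), (hExt _ _ (le_max_left _ _)).1 (hN x hx),
      (hExt _ _ (le_max_right _ _)).1 (hN y hy)⟩
  have hφmono : ∀ x ∈ O, ∀ y ∈ O, x < y → φ x < φ y ∧ φ y - φ x ≤ y - x := by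
    intro x hx y hy hxy
    obtain ⟨n, h1, h2⟩ := hpair x hx y hy
    rw [hφ n x hx h1, hφ n y hy h2]
    exact (C n).mono x h1 y h2 hxy
  have hφG : ∀ x ∈ G, φ x ∈ G := by
    intro x hx
    have h1 := (C (N x)).mem x (hN x (hGO hx))
    have h2 := G.add_mem h1 hx
    have h3 : (C (N x)).F x - x + x = φ x := by simp only [φ]; ring
    rw [h3] at h2
    exact h2
  let f : G → G := fun x => ⟨φ x, hφG x x.2⟩
  intro hpl
  have hbij : Function.Bijective f := by
    constructor
    · intro x y hxy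
      have hxy' : φ x = φ y := congrArg Subtype.val hxy
      rcases lt_trichotomy (x : ℝ) y with h | h | h
      · linarith [(hφmono x (hGO x.2) y (hGO y.2) h).1]
      · exact Subtype.ext h
      · linarith [(hφmono y (hGO y.2) x (hGO x.2) h).1]
    · intro w
      obtain ⟨n, t, ht1, ht2⟩ := hcovR w (hGO w.2)
      have htG : t ∈ G := by
        have h1 := (C n).mem t ht1
        have h2 := G.sub_mem w.2 h1
        have h3 : (w : ℝ) - ((C n).F t - t) = t := by rw [ht2]; ring
        rw [h3] at h2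
        exact h2
      refine ⟨⟨t, htG⟩, Subtype.ext ?_⟩
      show φ t = w
      rw [hφ n t (hGO htG) ht1, ht2]
  have hne : ∀ x y, dist (f x) (f y) ≤ dist x y := by
    intro x y
    show dist (φ x) (φ y) ≤ dist (x : ℝ) y
    rw [Real.dist_eq, Real.dist_eq]
    rcases lt_trichotomy (x : ℝ) y with h | h | h
    · have := hφmono x (hGO x.2) y (hGO y.2) h
      rw [abs_sub_comm, abs_of_pos (by linarith), abs_sub_comm, abs_of_pos (by linarith)]
      exact this.2
    · rw [h]; simp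
    · have := hφmono y (hGO y.2) x (hGO x.2) h
      rw [abs_of_pos (by linarith), abs_of_pos (by linarith)]
      exact this.2
  have hiso := hpl f hbij hne
  obtain ⟨x, hx1, hx2⟩ := hd.exists_mem_open (isOpen_Iio : IsOpen (Iio a)) ⟨a - 1, by simp⟩
  obtain ⟨y, hy1, hy2⟩ := hd.exists_mem_open (isOpen_Ioi : IsOpen (Ioi b)) ⟨b + 1, by simp⟩
  have hxa : x < a := hx2
  have hyb : b < y := hy2
  have h1 : φ x = x := by
    rw [hφ 0 x (hGO hx1) (hZa (show x ≤ a from hxa.le))]
    exact hFa x hxa.le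
  have h2 : φ y = y + g := by
    rw [hφ 0 y (hGO hy1) (hZb (show b ≤ y from hyb.le))]
    exact hFb y hyb.le
  have h3 := hiso.dist_eq ⟨x, hx1⟩ ⟨y, hy1⟩
  have h4 : dist (φ x) (φ y) = dist x y := h3
  rw [h1, h2, Real.dist_eq, Real.dist_eq, abs_sub_comm, abs_of_pos (by linarith),
    abs_sub_comm, abs_of_pos (by linarith)] at h4
  exact hg0 (by linarith)

/-- the whole line is not plastic -/
lemma top_not_plastic (G : AddSubgroup ℝ) (hG : G = ⊤) : ¬ Plastic G := by
  subst hG
  intro hpl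
  let φ : ℝ → ℝ := fun x => min x (x / 2)
  have hφ1 : ∀ x, x ≤ 0 → φ x = x := fun x hx => min_eq_left (by linarith)
  have hφ2 : ∀ x, 0 ≤ x → φ x = x / 2 := fun x hx => min_eq_right (by linarith)
  let f : (⊤ : AddSubgroup ℝ) → (⊤ : AddSubgroup ℝ) := fun x => ⟨φ x, trivial⟩
  have hmono : ∀ x y, x < y → φ x < φ y ∧ φ y - φ x ≤ y - x := by
    intro x y hxy
    rcases le_total x 0 with hx | hx <;> rcases le_total y 0 with hy | hy
    · rw [hφ1 x hx, hφ1 y hy]; exact ⟨hxy, le_rfl⟩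
    · rw [hφ1 x hx, hφ2 y hy]; constructor <;> linarith
    · linarith
    · rw [hφ2 x hx, hφ2 y hy]; constructor <;> linarith
  have hbij : Function.Bijective f := by
    constructor
    · intro x y hxy
      have hxy' : φ x = φ y := congrArg Subtype.val hxy
      rcases lt_trichotomy (x : ℝ) y with h | h | h
      · linarith [(hmono x y h).1]
      · exact Subtype.ext h
      · linarith [(hmono y x h).1]
    · intro w
      rcases le_total (w : ℝ) 0 with h | h
      · exact ⟨w, Subtype.ext (hφ1 _ h)⟩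
      · refine ⟨⟨2 * w, trivial⟩, Subtype.ext ?_⟩
        show φ (2 * w) = w
        rw [hφ2 _ (by linarith)]; ring
  have hne : ∀ x y, dist (f x) (f y) ≤ dist x y := by
    intro x y
    show dist (φ x) (φ y) ≤ dist (x : ℝ) y
    rw [Real.dist_eq, Real.dist_eq]
    rcases lt_trichotomy (x : ℝ) y with h | h | h
    · have := hmono x y h
      rw [abs_sub_comm, abs_of_pos (by linarith), abs_sub_comm, abs_of_pos (by linarith)]
      exact this.2
    · rw [h]; simp
    · have := hmono y x h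
      rw [abs_of_pos (by linarith), abs_of_pos (by linarith)]
      exact this.2
  have hiso := hpl f hbij hne
  have h3 := hiso.dist_eq ⟨0, trivial⟩ ⟨1, trivial⟩
  have h4 : dist (φ 0) (φ 1) = dist (0:ℝ) 1 := h3
  rw [hφ2 0 le_rfl, hφ2 1 zero_le_one, Real.dist_eq, Real.dist_eq] at h4
  norm_num at h4

/-- a measurable subgroup of positive measure is everything -/
lemma eq_top_of_pos (G : AddSubgroup ℝ) (hm : NullMeasurableSet (G : Set ℝ) volume)
    (h0 : volume (G : Set ℝ) ≠ 0) : G = ⊤ := by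
  obtain ⟨E, hE1, hE2, hE3⟩ := hm.exists_measurable_subset_ae_eq
  have hEpos : 0 < volume E := by
    rw [measure_congr hE3]; exact pos_iff_ne_zero.mpr h0
  have hnhds := Measure.sub_mem_nhds_zero_of_addHaar_pos (volume : Measure ℝ) E hE2 hEpos
  have hG : (G : Set ℝ) ∈ nhds (0 : ℝ) := by
    refine Filter.mem_of_superset hnhds ?_
    rintro _ ⟨x, hx, y, hy, rfl⟩
    exact G.sub_mem (hE1 hx) (hE1 hy)
  obtain ⟨ε, hε, hball⟩ := Metric.mem_nhds_iff.mp hG
  rw [eq_top_iff]
  intro x _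
  obtain ⟨n, hn⟩ := exists_nat_gt (|x| / ε)
  have hn0 : 0 < (n : ℝ) := lt_of_le_of_lt (by positivity) hn
  have h1 : x / n ∈ (G : Set ℝ) := by
    apply hball
    rw [Metric.mem_ball, Real.dist_eq, sub_zero, abs_div, abs_of_pos hn0, div_lt_iff₀ hn0]
    rw [div_lt_iff₀ hε] at hn
    linarith
  have h2 := G.nsmul_mem h1 n
  have h3 : n • (x / n) = x := by
    rw [nsmul_eq_mul]; field_simp
  rw [h3] at h2
  exact h2

/-- A dense subgroup of the real line which is Lebesgue measurable is not plastic. -/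
theorem result (G : AddSubgroup ℝ) (hd : Dense (G : Set ℝ))
    (hm : NullMeasurableSet (G : Set ℝ) volume) : ¬ Plastic G := by
  by_cases h0 : volume (G : Set ℝ) = 0
  · exact null_not_plastic G hd h0
  · exact top_not_plastic G (eq_top_of_pos G hm h0)

end Pool.Agent.Results.MP_f5469c_gt.MeasurableNotPlastic
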